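import Pool.Agent.H20.JT.Main2

/-!
# Pairwise compatible Euler tours: the asymptotic form of Jackson's conjecture

Jackson's conjecture says that an Eulerian graph of minimum degree `2 d` has at least `2 d - 2`
pairwise compatible Euler tours (`2 d - 1` is an upper bound). Here: there are at least
`2 d - C d ^ (4 / 5)`, for simple graphs and for multigraphs.

Method. The vertices are treated one at a time. At a vertex with the set `X` of half-edges the
given tours induce fixed point free involutions `N₁, ..., N_r` of `X` (first return), and one needs
pairwise disjoint fixed point free involutions `T₁, ..., T_r` of `X` such that each `Tᵢ ∪ Nᵢ` is one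
cycle. For `r ≤ |X| - |X| ^ (4/5)` they are found as follows. Up to a few points `X` is `A × Z_m`,
`A` an elementary abelian 2-group with `|A| ≈ |X| ^ 0.21`; the matchings
`(p, a) ↦ (p + g, j - a)` are relabelled by random class preserving permutations `σ_g`, the types
`g` in a small generating set `R` of `A` are kept in reserve. A switching argument shows that every
point is in short cycles only rarely, multiplicative weights (over the `|A|` steps) show that no
point has to be used too often, and the cycles are merged with the help of the reserve edges.
-/

set_option autoImplicit false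

namespace Pool.Agent.Results.MP_fe131b_co.AsymptoticJackson

open H20JT

universe u

/-- There is a constant `C` such that

1. every finite connected simple graph `G` all of whose degrees are even and whose minimum degree
  is `2 d` has `r ≥ 2 d - C d ^ (4 / 5)` Euler tours (closed walks containing every edge exactly
  once) which are pairwise compatible: no unordered pair of edges is consecutive (cyclically) in
  two of them;

2. the same holds for multigraphs with loops and parallel edges, given by the finite set `D` of
  half-edges, the fixed point free involution `ρ` of `D` and the map `src : D → V`, with transitions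
  as unordered pairs of half-edges. -/
theorem result : ∃ C : ℝ,
    (∀ (V : Type u) [Fintype V] [DecidableEq V] (G : SimpleGraph V) [DecidableRel G.Adj] (d : ℕ),
      G.Connected → (∀ v, Even (G.degree v)) → G.minDegree = 2 * d →
      ∃ r : ℕ, 2 * (d : ℝ) - C * (d : ℝ) ^ (4 / 5 : ℝ) ≤ r ∧
        ∃ (v : Fin r → V) (p : ∀ i, G.Walk (v i) (v i)), (∀ i, (p i).IsEulerian) ∧
          ∀ i j, i ≠ j → Disjoint (transitions (p i)) (transitions (p j))) ∧
    (∀ (D V : Type u) [Fintype D] [DecidableEq D] [Fintype V] [DecidableEq V] [Nonempty V]
      (ρ : D → D) (src : D → V) (d : ℕ), Fpf ρ →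
      (∀ v w : V, Relation.ReflTransGen (fun v w => ∃ x, src x = v ∧ src (ρ x) = w) v w) →
      (∀ v, Even (Finset.univ.filter fun x => src x = v).card) →
      (∀ v, 2 * d ≤ (Finset.univ.filter fun x => src x = v).card) →
      ∃ r : ℕ, 2 * (d : ℝ) - C * (d : ℝ) ^ (4 / 5 : ℝ) ≤ r ∧
        ∃ c : Fin r → ZMod (Fintype.card D / 2) → D,
          (∀ i, IsTour ρ src (Fintype.card D / 2) (c i)) ∧
            ∀ i j, i ≠ j → Disjoint (dtrans ρ (c i)) (dtrans ρ (c j))) := by
  obtain ⟨C₁, h₁⟩ := fin2_main.{u}
  obtain ⟨C₂, h₂⟩ := mfin_main.{u}
  refine ⟨max C₁ C₂, ?_, ?_⟩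
  · intro V _ _ G _ d hc he hd
    obtain ⟨r, hr, h⟩ := h₁ V G d hc he hd
    refine ⟨r, le_trans ?_ hr, h⟩
    gcongr
    exact le_max_left _ _
  · intro D V _ _ _ _ _ ρ src d hρ hc he hd
    obtain ⟨r, hr, h⟩ := h₂ D V ρ src d hρ hc he hd
    refine ⟨r, le_trans ?_ hr, h⟩
    gcongr
    exact le_max_right _ _

end Pool.Agent.Results.MP_fe131b_co.AsymptoticJackson
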